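import Pool.Agent.Helper92.PW.St

/-!
# Project PW (MP_ad0dc2_nt), module PLN
-/

set_option autoImplicit false

open Finset

namespace Pool.Agent.Helper93.PW

open Pool.Agent.Helper92.PW

theorem hPLN (hPLG : StPLG) (hPLC : StPLC) : StPLN := by
  classical
  intro k B β lam hP hk N hN S hS hd
  have hβ := hP.b0
  rcases S.eq_empty_or_nonempty with rfl | hne
  · rw [Finset.card_empty, Nat.cast_zero]
    positivity
  obtain ⟨p1, hp1, hmin⟩ := Finset.exists_min_image S xi hne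
  obtain ⟨p2, hp2, hmax⟩ := Finset.exists_max_image S xi hne
  set τ : ℝ := 48 * |(k : ℝ)| / (β * B ^ 3) with hτ
  have hcl : ∀ p ∈ S, ((S.filter fun q => (xi q - xi p) ^ 2 ≤ τ).card : ℝ) ≤ 1551 * |(k : ℝ)| / β ^ 7 := by
    intro p hp
    refine hPLC k B β lam hP hk N hN p (hS p hp).1 (hS p hp).2 _ ?_
    intro q hq
    rw [Finset.mem_filter] at hq
    exact ⟨(hS q hq.1).1, (hS q hq.1).2, hq.2⟩
  have hsub : S ⊆ (S.filter fun q => (xi q - xi p1) ^ 2 ≤ τ) ∪ (S.filter fun q => (xi q - xi p2) ^ 2 ≤ τ) := by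
    intro q hq
    rw [Finset.mem_union, Finset.mem_filter, Finset.mem_filter]
    have h := hPLG k B β lam hP N hN p1 q p2 (hS p1 hp1).1 (hS q hq).1 (hS p2 hp2).1 (hS p1 hp1).2
      (hS q hq).2 (hS p2 hp2).2 (hd q hq p1 hp1) (hd p2 hp2 p1 hp1) (hd p2 hp2 q hq)
    rcases h with h | h | h
    · exact Or.inl ⟨hq, h⟩
    · refine Or.inl ⟨hq, le_trans ?_ h⟩
      have h1 := hmin q hq
      have h2 := hmax q hq
      apply pow_le_pow_left₀ <;> linarith
    · refine Or.inr ⟨hq, ?_⟩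
      have e : (xi q - xi p2) ^ 2 = (xi p2 - xi q) ^ 2 := by ring
      rw [e]
      exact h
  have h1 : (S.card : ℝ) ≤ ((S.filter fun q => (xi q - xi p1) ^ 2 ≤ τ).card : ℝ) +
      ((S.filter fun q => (xi q - xi p2) ^ 2 ≤ τ).card : ℝ) := by
    exact_mod_cast (Finset.card_le_card hsub).trans (Finset.card_union_le _ _)
  have h2 := hcl p1 hp1
  have h3 := hcl p2 hp2
  have e : 3102 * |(k : ℝ)| / β ^ 7 = 1551 * |(k : ℝ)| / β ^ 7 + 1551 * |(k : ℝ)| / β ^ 7 := by ring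
  rw [e]
  linarith

end Pool.Agent.Helper93.PW
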